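import Pool.Agent.W186.AI.Spec

set_option autoImplicit false

namespace Pool.Agent.W684.AI.SGD

open Pool.Agent.W186.AI
open Complex Filter Topology Metric Set
open scoped Real

lemma norm_pow_le (p : Nat.Primes) (s : ℂ) (hs : 8 ≤ s.re) :
    ‖((p : ℕ) : ℂ) ^ (-s)‖ ≤ 1 / 64 * (1 / ((p : ℕ) : ℝ) ^ 2) := by
  have hp2 : (2 : ℝ) ≤ ((p : ℕ) : ℝ) := by exact_mod_cast p.2.two_le
  have hp0 : (0 : ℝ) < ((p : ℕ) : ℝ) := by linarith
  rw [Complex.norm_natCast_cpow_of_pos p.2.pos]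
  have h1 : ((p : ℕ) : ℝ) ^ (-s).re ≤ ((p : ℕ) : ℝ) ^ (-(8 : ℝ)) := by
    apply Real.rpow_le_rpow_of_exponent_le (by linarith)
    simp; linarith
  have h2 : ((p : ℕ) : ℝ) ^ (-(8 : ℝ)) = 1 / ((p : ℕ) : ℝ) ^ 8 := by
    rw [Real.rpow_neg hp0.le, ← one_div]
    norm_num
  have h3 : 1 / ((p : ℕ) : ℝ) ^ 8 ≤ 1 / 64 * (1 / ((p : ℕ) : ℝ) ^ 2) := by
    have h4 : (64 : ℝ) ≤ ((p : ℕ) : ℝ) ^ 6 := by
      calc (64 : ℝ) = 2 ^ 6 := by norm_num
        _ ≤ ((p : ℕ) : ℝ) ^ 6 := by gcongr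
    rw [one_div_mul_one_div]
    apply one_div_le_one_div_of_le (by positivity)
    calc (64 : ℝ) * ((p : ℕ) : ℝ) ^ 2 ≤ ((p : ℕ) : ℝ) ^ 6 * ((p : ℕ) : ℝ) ^ 2 := by gcongr
      _ = ((p : ℕ) : ℝ) ^ 8 := by ring
  linarith [h1, h2.le, h3]

lemma bd_lt (p : Nat.Primes) : 1 / 64 * (1 / ((p : ℕ) : ℝ) ^ 2) ≤ 1 / 2 := by
  have hp2 : (1 : ℝ) ≤ ((p : ℕ) : ℝ) := by exact_mod_cast p.2.one_le
  have : 1 / ((p : ℕ) : ℝ) ^ 2 ≤ 1 := by
    rw [div_le_one (by positivity)]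
    nlinarith
  linarith

lemma norm_mul_le' (p : Nat.Primes) (w s : ℂ) (hw : ‖w‖ ≤ 1) (hs : 8 ≤ s.re) :
    ‖w * ((p : ℕ) : ℂ) ^ (-s)‖ ≤ 1 / 64 * (1 / ((p : ℕ) : ℝ) ^ 2) := by
  rw [norm_mul]
  have h := norm_pow_le p s hs
  have h0 : (0 : ℝ) ≤ ‖((p : ℕ) : ℂ) ^ (-s)‖ := norm_nonneg _
  nlinarith [norm_nonneg w]

lemma norm_log_le (p : Nat.Primes) (w s : ℂ) (hw : ‖w‖ ≤ 1) (hs : 8 ≤ s.re) :
    ‖log (1 - w * ((p : ℕ) : ℂ) ^ (-s))‖ ≤ 3 / 128 * (1 / ((p : ℕ) : ℝ) ^ 2) := by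
  have h := norm_mul_le' p w s hw hs
  have h2 := bd_lt p
  have h3 : ‖-(w * ((p : ℕ) : ℂ) ^ (-s))‖ ≤ 1 / 2 := by rw [norm_neg]; linarith
  have h4 := Complex.norm_log_one_add_half_le_self h3
  rw [norm_neg, ← sub_eq_add_neg] at h4
  linarith

lemma slit (p : Nat.Primes) (w s : ℂ) (hw : ‖w‖ ≤ 1) (hs : 8 ≤ s.re) :
    1 - w * ((p : ℕ) : ℂ) ^ (-s) ∈ slitPlane := by
  have h := norm_mul_le' p w s hw hs
  have h2 := bd_lt p
  rw [sub_eq_add_neg]
  apply Complex.mem_slitPlane_of_norm_lt_one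
  rw [norm_neg]; linarith

lemma pne (p : Nat.Primes) : ((p : ℕ) : ℂ) ≠ 0 := by exact_mod_cast p.2.ne_zero

/-- the terms -/
noncomputable def F (σ : ℝ) (p : Nat.Primes) (w t : ℂ) : ℂ :=
  log (1 - w * ((p : ℕ) : ℂ) ^ (-((σ : ℂ) + I * t))) -
    log (1 - w * ((p : ℕ) : ℂ) ^ (-((σ : ℂ) - I * t)))

lemma re_add (σ : ℝ) (hσ : 10 ≤ σ) (t : ℂ) (ht : ‖t‖ < 2) : 8 ≤ ((σ : ℂ) + I * t).re := by
  have h := (Complex.abs_im_le_norm t).trans_lt ht
  have := abs_lt.mp h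
  simp
  linarith

lemma re_sub (σ : ℝ) (hσ : 10 ≤ σ) (t : ℂ) (ht : ‖t‖ < 2) : 8 ≤ ((σ : ℂ) - I * t).re := by
  have h := (Complex.abs_im_le_norm t).trans_lt ht
  have := abs_lt.mp h
  simp
  linarith

lemma norm_F (σ : ℝ) (hσ : 10 ≤ σ) (p : Nat.Primes) (w t : ℂ) (hw : ‖w‖ ≤ 1) (ht : ‖t‖ < 2) :
    ‖F σ p w t‖ ≤ 3 / 64 * (1 / ((p : ℕ) : ℝ) ^ 2) := by
  unfold F
  have h1 := norm_log_le p w _ hw (re_add σ hσ t ht)
  have h2 := norm_log_le p w _ hw (re_sub σ hσ t ht)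
  have h3 := norm_sub_le (log (1 - w * ((p : ℕ) : ℂ) ^ (-((σ : ℂ) + I * t))))
    (log (1 - w * ((p : ℕ) : ℂ) ^ (-((σ : ℂ) - I * t))))
  linarith

lemma sumz : Summable (fun p : Nat.Primes => 3 / 64 * (1 / ((p : ℕ) : ℝ) ^ 2)) := by
  apply Summable.mul_left
  have h : Summable (fun n : ℕ => 1 / (n : ℝ) ^ 2) := Real.summable_one_div_nat_pow.mpr (by norm_num)
  exact h.comp_injective (i := fun p : Nat.Primes => (p : ℕ)) (fun a b h => Subtype.ext h)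

lemma tsum_le : ∑' p : Nat.Primes, 3 / 64 * (1 / ((p : ℕ) : ℝ) ^ 2) ≤ 1 := by
  have h : Summable (fun n : ℕ => 1 / (n : ℝ) ^ 2) := Real.summable_one_div_nat_pow.mpr (by norm_num)
  have h1 : ∑' p : Nat.Primes, 1 / ((p : ℕ) : ℝ) ^ 2 ≤ ∑' n : ℕ, 1 / (n : ℝ) ^ 2 := by
    exact tsum_comp_le_tsum_of_inj h (fun n => by positivity)
      (i := fun p : Nat.Primes => (p : ℕ)) (fun a b h => Subtype.ext h)
  rw [tsum_mul_left]
  have h2 := hasSum_zeta_two.tsum_eq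
  rw [h2] at h1
  have h3 := Real.pi_lt_four
  have h4 := Real.pi_pos
  nlinarith

lemma S_eq (σ : ℝ) (ω : Nat.Primes → ℂ) (t : ℂ) :
    S σ ω t = (∑' p : Nat.Primes, F σ p (ω p) t) / (2 * I) := rfl

lemma diff_F (σ : ℝ) (hσ : 10 ≤ σ) (p : Nat.Primes) (w : ℂ) (hw : ‖w‖ ≤ 1) :
    DifferentiableOn ℂ (fun t => F σ p w t) (ball 0 2) := by
  intro t ht
  have ht' : ‖t‖ < 2 := by simpa using ht
  apply DifferentiableAt.differentiableWithinAt
  unfold F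
  have hp := pne p
  have e1 : DifferentiableAt ℂ (fun t : ℂ => ((p : ℕ) : ℂ) ^ (-((σ : ℂ) + I * t))) t := by
    apply DifferentiableAt.const_cpow
    · fun_prop
    · exact Or.inl hp
  have e2 : DifferentiableAt ℂ (fun t : ℂ => ((p : ℕ) : ℂ) ^ (-((σ : ℂ) - I * t))) t := by
    apply DifferentiableAt.const_cpow
    · fun_prop
    · exact Or.inl hp
  apply DifferentiableAt.sub
  · apply DifferentiableAt.clog
    · exact (differentiableAt_const _).sub ((differentiableAt_const _).mul e1)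
    · exact slit p w _ hw (re_add σ hσ t ht')
  · apply DifferentiableAt.clog
    · exact (differentiableAt_const _).sub ((differentiableAt_const _).mul e2)
    · exact slit p w _ hw (re_sub σ hσ t ht')

lemma diff_S (σ : ℝ) (hσ : 10 ≤ σ) (ω : Nat.Primes → ℂ) (hω : ∀ p, ‖ω p‖ ≤ 1) :
    DifferentiableOn ℂ (S σ ω) (ball 0 2) := by
  have h : DifferentiableOn ℂ (fun t => ∑' p : Nat.Primes, F σ p (ω p) t) (ball 0 2) := by
    apply differentiableOn_tsum_of_summable_norm sumz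
      (fun p => diff_F σ hσ p (ω p) (hω p)) isOpen_ball
    intro p t ht
    exact norm_F σ hσ p (ω p) t (hω p) (by simpa using ht)
  exact h.div_const _

lemma norm_S (σ : ℝ) (hσ : 10 ≤ σ) (ω : Nat.Primes → ℂ) (hω : ∀ p, ‖ω p‖ ≤ 1) (t : ℂ)
    (ht : ‖t‖ < 2) : ‖S σ ω t‖ ≤ 1 / 2 := by
  rw [S_eq, norm_div]
  have h1 : ‖∑' p : Nat.Primes, F σ p (ω p) t‖ ≤ 1 :=
    (tsum_of_norm_bounded sumz.hasSum (fun p => norm_F σ hσ p (ω p) t (hω p) ht)).trans tsum_le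
  have h2 : ‖(2 * I : ℂ)‖ = 2 := by simp
  rw [h2]
  linarith

theorem main : S_SGD := by
  intro σ hσ
  refine ⟨fun ω hω => ⟨⟨?_, ?_⟩, ?_⟩, ?_⟩
  · intro t ht
    have ht' : ‖t‖ < 1 := by simpa using ht
    have := norm_S σ hσ ω hω t (by linarith)
    linarith
  · intro t ht u hu
    have hD := diff_S σ hσ ω hω
    have hd : ∀ z ∈ ball (0 : ℂ) 1, ‖deriv (S σ ω) z‖ ≤ 1 := by
      intro z hz
      have hz' : ‖z‖ < 1 := by simpa using hz
      have hR : (0 : ℝ) < 1 / 2 := by norm_num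
      have hsub : closedBall z (1 / 2) ⊆ ball (0 : ℂ) 2 := by
        intro x hx
        rw [mem_closedBall, dist_eq_norm] at hx
        rw [mem_ball_zero_iff]
        calc ‖x‖ = ‖(x - z) + z‖ := by ring_nf
          _ ≤ ‖x - z‖ + ‖z‖ := norm_add_le _ _
          _ < 2 := by linarith
      have hdc : DiffContOnCl ℂ (S σ ω) (ball z (1 / 2)) :=
        (hD.mono hsub).diffContOnCl_ball (U := closedBall z (1/2)) (le_refl _)
      have := Complex.norm_deriv_le_of_forall_mem_sphere_norm_le hR hdc (C := 1 / 2) (by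
        intro x hx
        have hx2 : x ∈ ball (0 : ℂ) 2 := hsub (sphere_subset_closedBall hx)
        exact norm_S σ hσ ω hω x (by simpa using hx2))
      calc ‖deriv (S σ ω) z‖ ≤ 1 / 2 / (1 / 2) := this
        _ = 1 := by norm_num
    have hda : ∀ z ∈ ball (0 : ℂ) 1, DifferentiableAt ℂ (S σ ω) z := by
      intro z hz
      exact (hD z (ball_subset_ball (by norm_num) hz)).differentiableAt
        (isOpen_ball.mem_nhds (ball_subset_ball (by norm_num) hz))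
    have := (convex_ball (0 : ℂ) 1).norm_image_sub_le_of_norm_deriv_le hda hd hu ht
    exact this
  · exact (diff_S σ hσ ω hω).mono (ball_subset_ball (by norm_num))
  · have h : ContinuousOn (fun q : (Nat.Primes → ℂ) × ℂ => ∑' p : Nat.Primes, F σ p (q.1 p) q.2)
        ({ω | ∀ p, ‖ω p‖ ≤ 1} ×ˢ ball (0 : ℂ) 1) := by
      apply continuousOn_tsum (u := fun p : Nat.Primes => 3 / 64 * (1 / ((p : ℕ) : ℝ) ^ 2)) _ sumz
      · rintro p ⟨ω, t⟩ ⟨hω, ht⟩
        have ht' : ‖t‖ < 1 := by simpa using ht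
        exact norm_F σ hσ p (ω p) t (hω p) (by linarith)
      · intro p
        rintro ⟨ω, t⟩ ⟨hω, ht⟩
        have ht' : ‖t‖ < 1 := by simpa using ht
        apply ContinuousAt.continuousWithinAt
        have hp := pne p
        unfold F
        have c0 : ContinuousAt (fun q : (Nat.Primes → ℂ) × ℂ => q.1 p) (ω, t) := by fun_prop
        have e1 : ContinuousAt (fun q : (Nat.Primes → ℂ) × ℂ =>
            ((p : ℕ) : ℂ) ^ (-((σ : ℂ) + I * q.2))) (ω, t) := by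
          apply ContinuousAt.const_cpow
          · fun_prop
          · exact Or.inl hp
        have e2 : ContinuousAt (fun q : (Nat.Primes → ℂ) × ℂ =>
            ((p : ℕ) : ℂ) ^ (-((σ : ℂ) - I * q.2))) (ω, t) := by
          apply ContinuousAt.const_cpow
          · fun_prop
          · exact Or.inl hp
        apply ContinuousAt.sub
        · apply ContinuousAt.clog
          · exact continuousAt_const.sub (c0.mul e1)
          · exact slit p (ω p) _ (hω p) (re_add σ hσ t (by linarith))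
        · apply ContinuousAt.clog
          · exact continuousAt_const.sub (c0.mul e2)
          · exact slit p (ω p) _ (hω p) (re_sub σ hσ t (by linarith))
    exact h.div_const _

end Pool.Agent.W684.AI.SGD
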